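import Mathlib
import Pool.Agent.Lib_helper62.QuantumMulDefs
import Pool.Agent.Lib_helper62.QuantumMulProof

namespace Pool.Agent.Results.MP_bcdf42_nt.QuotientsIff

open Pool.Agent.Lib_helper62.QuantumMul

/-- Let `P` be a set of primes. Every sequence of rational functions with support `S(P)`
satisfying (FE) lies in `K(Γ(P))` if and only if `P` has at most one element. -/
theorem result (P : Set ℕ) (hP : ∀ p ∈ P, p.Prime) :
    RatSol P ⊆ KGamma P ↔ P.Subsingleton :=
  main P hP

end Pool.Agent.Results.MP_bcdf42_nt.QuotientsIff
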